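import Pool.Agent.HLead.CB.Meas

/-!
# Convex bi-embeddability of countable linear orders is Borel reducible to isomorphism (MP_387a72_lc)

`LO` is the space of the codes of the linear orders on `ℕ` (a subspace of `2^(ℕ × ℕ)`) with its Borel
`σ`-algebra, `BiEmb` is convex bi-embeddability and `IsoLO` is isomorphism (all in
`Pool.Agent.HLead.CB.Defs`).
-/

set_option autoImplicit false

namespace Pool.Agent.Results.MP_387a72_lc.ConvexBiembeddability
open Pool.Agent.HLead.CB

/-- There is a Borel map `h : LO → LO` such that `x` and `y` are convexly bi-embeddable if and only if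
`h x` and `h y` are isomorphic. -/
theorem result : ∃ h : LO → LO, Measurable h ∧ ∀ x y : LO, BiEmb x y ↔ IsoLO (h x) (h y) :=
  ⟨red, measurable_red, red_iff⟩

end Pool.Agent.Results.MP_387a72_lc.ConvexBiembeddability
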